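import Mathlib

/-!
# WU-KER, first part: a partition of the unit interval
-/

set_option autoImplicit false

open MeasureTheory
open scoped unitInterval

namespace Pool.Agent.Y10.WU

/-- the number of the interval which contains `u` -/
noncomputable def idx (n : ℕ) (hn : 0 < n) (u : I) : Fin n :=
  ⟨min ⌊(u : ℝ) * n⌋₊ (n - 1), by have := min_le_right ⌊(u : ℝ) * n⌋₊ (n - 1); omega⟩

theorem idx_set (n : ℕ) (hn : 0 < n) (i : Fin n) :
    {u : I | idx n hn u = i} = if h : (i : ℕ) + 1 < n then
      Set.Ico (⟨(i : ℝ) / n, by positivity, by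
          rw [div_le_one (by positivity)]; exact_mod_cast i.2.le⟩ : I)
        ⟨((i : ℝ) + 1) / n, by positivity, by
          rw [div_le_one (by positivity)]; exact_mod_cast h.le⟩
      else Set.Ici (⟨(i : ℝ) / n, by positivity, by
          rw [div_le_one (by positivity)]; exact_mod_cast i.2.le⟩ : I) := by
  have hn' : (0 : ℝ) < n := by exact_mod_cast hn
  split_ifs with h
  · ext u
    rw [Set.mem_ofPred_eq, Set.mem_Ico, Fin.ext_iff]
    have hu : 0 ≤ (u : ℝ) * n := mul_nonneg u.2.1 hn'.le
    have e1 : ((idx n hn u : Fin n) : ℕ) = min ⌊(u : ℝ) * n⌋₊ (n - 1) := rfl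
    rw [e1]
    have e2 : (⟨(i : ℝ) / n, by positivity, by
          rw [div_le_one (by positivity)]; exact_mod_cast i.2.le⟩ : I) ≤ u ↔
          (i : ℝ) ≤ (u : ℝ) * n := by
      rw [← Subtype.coe_le_coe, div_le_iff₀ hn']
    have e3 : u < (⟨((i : ℝ) + 1) / n, by positivity, by
          rw [div_le_one (by positivity)]; exact_mod_cast h.le⟩ : I) ↔
          (u : ℝ) * n < (i : ℝ) + 1 := by
      rw [← Subtype.coe_lt_coe, lt_div_iff₀ hn']
    rw [e2, e3]
    constructor
    · intro h1
      have h2 : ⌊(u : ℝ) * n⌋₊ = i := by omega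
      exact (Nat.floor_eq_iff hu).1 h2
    · intro h1
      have h2 : ⌊(u : ℝ) * n⌋₊ = i := (Nat.floor_eq_iff hu).2 h1
      omega
  · ext u
    rw [Set.mem_ofPred_eq, Set.mem_Ici, Fin.ext_iff]
    have hu : 0 ≤ (u : ℝ) * n := mul_nonneg u.2.1 hn'.le
    have e1 : ((idx n hn u : Fin n) : ℕ) = min ⌊(u : ℝ) * n⌋₊ (n - 1) := rfl
    rw [e1]
    have e2 : (⟨(i : ℝ) / n, by positivity, by
          rw [div_le_one (by positivity)]; exact_mod_cast i.2.le⟩ : I) ≤ u ↔
          (i : ℝ) ≤ (u : ℝ) * n := by
      rw [← Subtype.coe_le_coe, div_le_iff₀ hn']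
    rw [e2]
    have hi := i.2
    rw [← Nat.le_floor_iff hu]
    omega

theorem idx_meas (n : ℕ) (hn : 0 < n) (i : Fin n) : MeasurableSet {u : I | idx n hn u = i} := by
  rw [idx_set]
  split_ifs
  · exact measurableSet_Ico
  · exact measurableSet_Ici

theorem idx_vol (n : ℕ) (hn : 0 < n) (i : Fin n) :
    (volume : Measure I).real {u : I | idx n hn u = i} = 1 / n := by
  have hn' : (0 : ℝ) < n := by exact_mod_cast hn
  rw [idx_set, measureReal_def]
  split_ifs with h
  · rw [unitInterval.volume_Ico]
    simp only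
    have e : ((i : ℝ) + 1) / n - (i : ℝ) / n = 1 / n := by ring
    rw [e, ENNReal.toReal_ofReal (by positivity)]
  · rw [unitInterval.volume_Ici]
    simp only
    have hi : (i : ℕ) + 1 = n := by have := i.2; omega
    have hi' : (i : ℝ) + 1 = n := by exact_mod_cast hi
    have e : 1 - (i : ℝ) / n = 1 / n := by
      field_simp
      linarith
    rw [e, ENNReal.toReal_ofReal (by positivity)]

/-- a random element with given weights -/
theorem split {G : Type} (X : Finset G) (w : G → ℕ) (n : ℕ) (hn : 0 < n)
    (hw : ∑ g ∈ X, w g = n) :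
    ∃ f : I → G, (∀ g, MeasurableSet {u | f u = g}) ∧ (∀ u, f u ∈ X ∧ w (f u) ≠ 0) ∧
      ∀ g ∈ X, (volume : Measure I).real {u | f u = g} = w g / n := by
  classical
  have hcard : Fintype.card (Fin n) = Fintype.card (Σ g : X, Fin (w g.1)) := by
    rw [Fintype.card_sigma]
    simp only [Fintype.card_fin]
    rw [← hw]
    exact (Finset.sum_coe_sort X w).symm
  let e : Fin n ≃ Σ g : X, Fin (w g.1) := Fintype.equivOfCardEq hcard
  have hset : ∀ g, {u : I | ((e (idx n hn u)).1 : G) = g} =
      ⋃ i ∈ Finset.univ.filter (fun i => ((e i).1 : G) = g), {u : I | idx n hn u = i} := by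
    intro g
    ext u
    simp
  refine ⟨fun u => ((e (idx n hn u)).1 : G), fun g => ?_, fun u => ⟨(e (idx n hn u)).1.2, ?_⟩,
    fun g hg => ?_⟩
  · rw [hset]
    exact Finset.measurableSet_biUnion _ fun i _ => idx_meas n hn i
  · have h1 := (e (idx n hn u)).2.2
    simp only
    omega
  · rw [hset, measureReal_biUnion_finset]
    · simp only [idx_vol]
      rw [Finset.sum_const, nsmul_eq_mul]
      have hc : (Finset.univ.filter (fun i => ((e i).1 : G) = g)).card = w g := by
        have h1 : (Finset.univ.filter (fun i => ((e i).1 : G) = g)).card =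
            (Finset.univ : Finset (Fin (w g))).card := by
          symm
          refine Finset.card_bij (fun j _ => e.symm ⟨⟨g, hg⟩, j⟩) ?_ ?_ ?_
          · intro j _
            simp
          · intro j _ j' _ h
            have h2 := e.symm.injective h
            simpa using h2
          · intro i hi
            rw [Finset.mem_filter] at hi
            obtain ⟨_, hi⟩ := hi
            rcases he : e i with ⟨⟨g', hg'⟩, j⟩
            rw [he] at hi
            simp only at hi
            subst hi
            exact ⟨j, Finset.mem_univ _, by rw [← he, Equiv.symm_apply_apply]⟩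
        rw [h1, Finset.card_univ, Fintype.card_fin]
      rw [hc]
      ring
    · intro i _ j _ hij
      refine Set.disjoint_left.2 fun u hu hu' => hij ?_
      rw [Set.mem_ofPred_eq] at hu hu'
      rw [← hu, ← hu']
    · intro i _
      exact idx_meas n hn i

end Pool.Agent.Y10.WU
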