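import Pool.Agent.Y782.WU.Stm
import Pool.Agent.Y10.WU.Split

/-!
# WU-KER: existence of the finite monotone couplings
-/

set_option autoImplicit false

open MeasureTheory
open scoped unitInterval

namespace Pool.Agent.Y10.WU

open Pool.Agent.Y782.WU

/-! ### general facts -/

section general

variable {W E : Type}

theorem NS_eq (M : FG W E) (O : Finset E) {α : Type} (X : Finset α) (f : α → Finset E)
    (h1 : ∀ a ∈ X, IsST M (f a) ∧ Disjoint (f a) O)
    (h2 : ∀ a ∈ X, ∀ b ∈ X, f a = f b → a = b)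
    (h3 : ∀ S, IsST M S → Disjoint S O → ∃ a ∈ X, f a = S) : NS M ∅ O tr = X.card := by
  classical
  unfold NS
  symm
  refine Finset.card_bij (fun t _ => f t) ?_ ?_ ?_
  · intro t ht
    obtain ⟨h4, h5⟩ := h1 t ht
    rw [Finset.mem_filter, Finset.mem_powerset]
    exact ⟨h4.1, h4, Finset.empty_subset _, h5, trivial⟩
  · intro t ht t' ht' he
    exact h2 t ht t' ht' he
  · intro S hS
    rw [Finset.mem_filter] at hS
    obtain ⟨t, h4, h5⟩ := h3 S hS.2.1 hS.2.2.2.1
    exact ⟨t, h4, h5⟩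

theorem HL' (hHL : S_HL) (M : FG W E) (O : Finset E) (h0 : 0 < NS M ∅ O tr) :
    ∃ c : Finset E → Finset E → ℕ,
      (∀ t S, c t S ≠ 0 → IsST M t ∧ Disjoint t O ∧ IsST M S ∧ ∀ e ∈ S, e ∉ O → e ∈ t) ∧
      (∀ t, IsST M t → Disjoint t O → ∑ S ∈ M.D.powerset, c t S = NS M ∅ ∅ tr) ∧
      (∀ S, IsST M S → ∑ t ∈ M.D.powerset, c t S = NS M ∅ O tr) := by
  classical
  obtain ⟨c, h1, h2, h3⟩ := hHL W E M O h0
  refine ⟨c, fun t S hne => ?_, h2, h3⟩
  obtain ⟨h4, h5, h6, h7⟩ := h1 t S hne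
  refine ⟨h4, h5, h6, fun e he heO => h7 ?_⟩
  rw [Finset.mem_sdiff]
  exact ⟨he, heO⟩

end general

variable {k : ℕ}

/-- the edges of a graph -/
noncomputable def eF (G : SimpleGraph (Fin k)) : Finset (Sym2 (Fin k)) :=
  (Set.toFinite G.edgeSet).toFinset

/-- the graph with the edges in `S` -/
def gr (S : Finset (Sym2 (Fin k))) : SimpleGraph (Fin k) :=
  SimpleGraph.fromEdgeSet (S : Set (Sym2 (Fin k)))

theorem mem_eF {G : SimpleGraph (Fin k)} {e : Sym2 (Fin k)} : e ∈ eF G ↔ e ∈ G.edgeSet :=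
  Set.Finite.mem_toFinset _

theorem eF_mono {G H : SimpleGraph (Fin k)} : eF G ⊆ eF H ↔ G ≤ H := by
  rw [← SimpleGraph.edgeSet_subset_edgeSet]
  constructor
  · intro h e he
    exact mem_eF.1 (h (mem_eF.2 he))
  · intro h e he
    exact mem_eF.2 (h (mem_eF.1 he))

theorem eF_inj {G H : SimpleGraph (Fin k)} (h : eF G = eF H) : G = H :=
  le_antisymm (eF_mono.1 h.subset) (eF_mono.1 h.symm.subset)

theorem eF_card (G : SimpleGraph (Fin k)) : (eF G).card = Nat.card G.edgeSet := by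
  rw [Nat.card_coe_set_eq, Set.ncard_eq_toFinset_card _ (Set.toFinite _)]
  rfl

theorem gr_adj {S : Finset (Sym2 (Fin k))} {a b : Fin k} :
    (gr S).Adj a b ↔ s(a, b) ∈ S ∧ a ≠ b := by
  unfold gr
  rw [SimpleGraph.fromEdgeSet_adj, Finset.mem_coe]

theorem eF_gr {S : Finset (Sym2 (Fin k))} {H : SimpleGraph (Fin k)} (h : S ⊆ eF H) :
    eF (gr S) = S := by
  ext e
  rw [mem_eF]
  induction e with
  | h a b =>
    rw [SimpleGraph.mem_edgeSet, gr_adj]
    constructor
    · exact fun h => h.1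
    · intro h1
      refine ⟨h1, ?_⟩
      have := mem_eF.1 (h h1)
      exact SimpleGraph.Adj.ne this

theorem gr_eF (G : SimpleGraph (Fin k)) : gr (eF G) = G :=
  eF_inj (eF_gr (Finset.Subset.refl _))

theorem gr_le {S : Finset (Sym2 (Fin k))} {H : SimpleGraph (Fin k)} (h : S ⊆ eF H) :
    gr S ≤ H := by
  rw [← eF_mono, eF_gr h]
  exact h

/-! ### maximal spanning forests -/

theorem msf_max {H t t' : SimpleGraph (Fin k)} (h : t ∈ MSF H) (h1 : t ≤ t') (h2 : t' ≤ H)
    (h3 : t'.IsAcyclic) : t' = t := by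
  have h4 : t.Reachable = H.Reachable := by
    funext a b
    exact propext ⟨fun h' => h'.mono h.1, fun h' => h.2.2 a b h'⟩
  have h5 := (SimpleGraph.maximal_isAcyclic_iff_reachable_eq h.1 h.2.1).2 h4
  exact le_antisymm (h5.2 ⟨h2, h3⟩ h1) h1

theorem msf_ext {H t : SimpleGraph (Fin k)} (h1 : t ≤ H) (h2 : t.IsAcyclic) :
    ∃ F, t ≤ F ∧ F ∈ MSF H := by
  obtain ⟨F, h3, h4, h5, h6⟩ :=
    SimpleGraph.exists_isAcyclic_reachable_eq_le_of_le_of_isAcyclic h1 h2
  exact ⟨F, h3, h4, h5, fun a b hab => by rw [h6]; exact hab⟩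

theorem msf_nonempty (H : SimpleGraph (Fin k)) : ∃ t, t ∈ MSF H := by
  obtain ⟨F, _, h⟩ := msf_ext (bot_le : (⊥ : SimpleGraph (Fin k)) ≤ H) SimpleGraph.isAcyclic_bot
  exact ⟨F, h⟩

theorem msf_conn {H t : SimpleGraph (Fin k)} (hH : H.Connected) :
    t ∈ MSF H ↔ t ≤ H ∧ t.IsTree := by
  haveI := hH.nonempty
  constructor
  · intro h
    exact ⟨h.1, ⟨⟨fun a b => h.2.2 a b (hH.preconnected a b)⟩, h.2.1⟩⟩
  · intro h
    exact ⟨h.1, h.2.isAcyclic, fun a b _ => h.2.connected.preconnected a b⟩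

/-- adding the edges of a spanning tree outside `h` to a maximal forest of `h` -/
theorem conn_add {h T t : SimpleGraph (Fin k)} (hT : T.Connected) (ht : t ∈ MSF h) :
    (gr (eF t ∪ (eF T \ eF h))).Connected := by
  classical
  haveI := hT.nonempty
  have hle : t ≤ gr (eF t ∪ (eF T \ eF h)) := by
    intro a b hab
    rw [gr_adj]
    exact ⟨Finset.mem_union_left _ (mem_eF.2 hab), hab.ne⟩
  refine ⟨fun a b => ?_⟩
  obtain ⟨p⟩ := hT.preconnected a b
  induction p with
  | nil => exact SimpleGraph.Reachable.refl _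
  | @cons u v w huv p ih =>
    refine SimpleGraph.Reachable.trans ?_ ih
    by_cases hh : h.Adj u v
    · exact (ht.2.2 u v hh.reachable).mono hle
    · apply SimpleGraph.Adj.reachable
      rw [gr_adj]
      refine ⟨Finset.mem_union_right _ (Finset.mem_sdiff.2 ⟨mem_eF.2 huv, fun hc => hh ?_⟩),
        huv.ne⟩
      exact mem_eF.1 hc

theorem tree_card {T : SimpleGraph (Fin k)} (hT : T.IsTree) : (eF T).card + 1 = k := by
  have := (SimpleGraph.isTree_iff_connected_and_card.1 hT).2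
  rw [← eF_card, Nat.card_eq_fintype_card, Fintype.card_fin] at this
  exact this

theorem conn_card {T : SimpleGraph (Fin k)} (hT : T.Connected) : k ≤ (eF T).card + 1 := by
  have := hT.card_vert_le_card_edgeSet_add_one
  rw [← eF_card, Nat.card_eq_fintype_card, Fintype.card_fin] at this
  exact this

/-- the edges of a tree which extends a maximal forest -/
theorem split_tree {h T t : SimpleGraph (Fin k)} (ht : t ∈ MSF h) (hT : T.IsTree)
    (htT : t ≤ T) : eF T = eF t ∪ (eF T \ eF h) := by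
  classical
  have h1 : T ⊓ h = t := msf_max ht (le_inf htT ht.1) inf_le_right (hT.isAcyclic.anti inf_le_left)
  ext e
  rw [Finset.mem_union, Finset.mem_sdiff]
  constructor
  · intro he
    by_cases heh : e ∈ eF h
    · left
      rw [← h1, mem_eF, SimpleGraph.edgeSet_inf]
      exact ⟨mem_eF.1 he, mem_eF.1 heh⟩
    · exact Or.inr ⟨he, heh⟩
  · rintro (he | he)
    · exact eF_mono.2 htT he
    · exact he.1

theorem sub_union {h h' T t : SimpleGraph (Fin k)} (hh : h ≤ h') (hT' : T ≤ h') (ht : t ≤ h) :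
    eF t ∪ (eF T \ eF h) ⊆ eF h' := by
  classical
  intro e he
  rw [Finset.mem_union, Finset.mem_sdiff] at he
  rcases he with he | he
  · exact eF_mono.2 (ht.trans hh) he
  · exact eF_mono.2 hT' he.1

theorem disj {h T t : SimpleGraph (Fin k)} (ht : t ≤ h) : Disjoint (eF t) (eF T \ eF h) := by
  classical
  rw [Finset.disjoint_left]
  intro e he hc
  rw [Finset.mem_sdiff] at hc
  exact hc.2 (eF_mono.2 ht he)

theorem msf_card_le {h h' t t' : SimpleGraph (Fin k)} (hh : h ≤ h') (hc : h'.Connected)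
    (ht : t ∈ MSF h) (ht' : t' ∈ MSF h) : (eF t).card ≤ (eF t').card := by
  classical
  obtain ⟨T, h1, h2, h3⟩ := hc.exists_isTree_le_of_le_of_isAcyclic (ht.1.trans hh) ht.2.1
  have e1 := tree_card h3
  have e2 := conn_card (conn_add h3.connected ht')
  rw [eF_gr (sub_union hh h2 ht'.1), Finset.card_union_of_disjoint (disj ht'.1)] at e2
  rw [split_tree ht h3 h1, Finset.card_union_of_disjoint (disj ht.1)] at e1
  omega

theorem msf_card {h h' t t' : SimpleGraph (Fin k)} (hh : h ≤ h') (hc : h'.Connected)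
    (ht : t ∈ MSF h) (ht' : t' ∈ MSF h) : (eF t).card = (eF t').card :=
  le_antisymm (msf_card_le hh hc ht ht') (msf_card_le hh hc ht' ht)

/-! ### the multigraph -/

/-- the multigraph of `h'` -/
noncomputable def mg (h' : SimpleGraph (Fin k)) : FG (Fin k) (Sym2 (Fin k)) where
  A := Finset.univ
  D := eF h'
  s := fun e => (Quot.out e).1
  t := fun e => (Quot.out e).2
  hs := fun _ _ => Finset.mem_univ _
  ht := fun _ _ => Finset.mem_univ _

theorem out_eq (e : Sym2 (Fin k)) : s((Quot.out e).1, (Quot.out e).2) = e := Quot.out_eq e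

theorem rch_iff {h' : SimpleGraph (Fin k)} {S : Finset (Sym2 (Fin k))} (hS : S ⊆ eF h')
    (a b : Fin k) : Rch (mg h') S a b ↔ (gr S).Reachable a b := by
  constructor
  · intro h
    induction h with
    | rel x y hxy =>
      obtain ⟨e, he, rfl, rfl⟩ := hxy
      apply SimpleGraph.Adj.reachable
      have h1 : s((Quot.out e).1, (Quot.out e).2) ∈ S := by rw [out_eq]; exact he
      rw [gr_adj]
      exact ⟨h1, SimpleGraph.Adj.ne (mem_eF.1 (hS h1))⟩
    | refl x => exact SimpleGraph.Reachable.refl _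
    | symm x y _ ih => exact ih.symm
    | trans x y z _ _ ih1 ih2 => exact ih1.trans ih2
  · rintro ⟨p⟩
    induction p with
    | nil => exact Relation.EqvGen.refl _
    | @cons u v w huv p ih =>
      refine Relation.EqvGen.trans _ _ _ ?_ ih
      rw [gr_adj] at huv
      have h1 := out_eq s(u, v)
      rw [Sym2.eq_iff] at h1
      rcases h1 with h1 | h1
      · exact Relation.EqvGen.rel _ _ ⟨s(u, v), huv.1, h1.1, h1.2⟩
      · exact Relation.EqvGen.symm _ _ (Relation.EqvGen.rel _ _ ⟨s(u, v), huv.1, h1.1, h1.2⟩)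

theorem isST_iff {h' : SimpleGraph (Fin k)} (hc : h'.Connected) (S : Finset (Sym2 (Fin k))) :
    IsST (mg h') S ↔ S ⊆ eF h' ∧ (gr S).IsTree := by
  haveI := hc.nonempty
  unfold IsST
  constructor
  · rintro ⟨h1, h2, h3⟩
    have h1' : S ⊆ eF h' := h1
    refine ⟨h1', SimpleGraph.isTree_iff_connected_and_card.2 ⟨⟨fun a b => ?_⟩, ?_⟩⟩
    · exact (rch_iff h1' a b).1 (h3 a (Finset.mem_univ _) b (Finset.mem_univ _))
    · rw [← eF_card, eF_gr h1', h2, Nat.card_eq_fintype_card]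
      rfl
  · rintro ⟨h1, h2⟩
    refine ⟨h1, ?_, fun a _ b _ => (rch_iff h1 a b).2 (h2.connected.preconnected a b)⟩
    have h3 := tree_card h2
    rw [eF_gr h1] at h3
    rw [h3]
    change k = (Finset.univ : Finset (Fin k)).card
    rw [Finset.card_univ, Fintype.card_fin]

theorem isST_eF {h' t : SimpleGraph (Fin k)} (hc : h'.Connected) (ht : t ∈ MSF h') :
    IsST (mg h') (eF t) := by
  rw [isST_iff hc, gr_eF]
  exact ⟨eF_mono.2 ht.1, ((msf_conn hc).1 ht).2⟩

theorem gr_msf {h' : SimpleGraph (Fin k)} (hc : h'.Connected) {S : Finset (Sym2 (Fin k))}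
    (hS : IsST (mg h') S) : gr S ∈ MSF h' ∧ eF (gr S) = S := by
  rw [isST_iff hc] at hS
  exact ⟨(msf_conn hc).2 ⟨gr_le hS.1, hS.2⟩, eF_gr hS.1⟩

/-! ### the correspondence -/

open Classical in
/-- the edges which are deleted -/
noncomputable def oo (h h' T0 : SimpleGraph (Fin k)) : Finset (Sym2 (Fin k)) :=
  eF h' \ (eF h ∪ (eF T0 \ eF h))

open Classical in
/-- the spanning tree of `h'` of a maximal forest of `h` -/
noncomputable def io (h T0 t : SimpleGraph (Fin k)) : Finset (Sym2 (Fin k)) :=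
  eF t ∪ (eF T0 \ eF h)

theorem io_st {h h' T0 t0 t : SimpleGraph (Fin k)} (hh : h ≤ h') (hc : h'.Connected)
    (ht0 : t0 ∈ MSF h) (hT : T0.IsTree) (hT' : T0 ≤ h') (h0 : t0 ≤ T0) (ht : t ∈ MSF h) :
    IsST (mg h') (io h T0 t) ∧ Disjoint (io h T0 t) (oo h h' T0) := by
  classical
  have hsub := sub_union hh hT' ht.1
  constructor
  · rw [isST_iff hc]
    refine ⟨hsub, SimpleGraph.isTree_iff_connected_and_card.2 ⟨conn_add hT.connected ht, ?_⟩⟩
    rw [← eF_card]
    unfold io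
    rw [eF_gr hsub, Finset.card_union_of_disjoint (disj ht.1), msf_card hh hc ht ht0,
      ← Finset.card_union_of_disjoint (disj ht0.1), ← split_tree ht0 hT h0, tree_card hT,
      Nat.card_eq_fintype_card, Fintype.card_fin]
  · rw [Finset.disjoint_left]
    intro e he hc
    unfold io at he
    unfold oo at hc
    rw [Finset.mem_sdiff] at hc
    apply hc.2
    rw [Finset.mem_union] at he ⊢
    rcases he with he | he
    · exact Or.inl (eF_mono.2 ht.1 he)
    · exact Or.inr he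

theorem io_surj {h h' T0 t0 : SimpleGraph (Fin k)} (hh : h ≤ h') (hc : h'.Connected)
    (ht0 : t0 ∈ MSF h) (hT : T0.IsTree) (h0 : t0 ≤ T0)
    {S : Finset (Sym2 (Fin k))} (hS : IsST (mg h') S) (hd : Disjoint S (oo h h' T0)) :
    ∃ t ∈ MSF h, io h T0 t = S := by
  classical
  rw [isST_iff hc] at hS
  obtain ⟨hS1, hS2⟩ := hS
  have hsub : S ⊆ eF h ∪ (eF T0 \ eF h) := by
    intro e he
    by_contra hce
    exact Finset.disjoint_left.1 hd he (Finset.mem_sdiff.2 ⟨hS1 he, hce⟩)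
  have hSh : S ∩ eF h ⊆ eF h := Finset.inter_subset_right
  have hle : gr (S ∩ eF h) ≤ h := gr_le hSh
  have hac : (gr (S ∩ eF h)).IsAcyclic := by
    refine hS2.isAcyclic.anti ?_
    intro a b hab
    rw [gr_adj] at hab ⊢
    exact ⟨Finset.inter_subset_left hab.1, hab.2⟩
  obtain ⟨t, h1, h2⟩ := msf_ext hle hac
  have c1 := tree_card hS2
  rw [eF_gr hS1] at c1
  have c2 := tree_card hT
  rw [split_tree ht0 hT h0, Finset.card_union_of_disjoint (disj ht0.1)] at c2
  have c3 := msf_card hh hc h2 ht0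
  have c4 : (S ∩ eF h).card ≤ (eF t).card := by
    have := Finset.card_le_card (eF_mono.2 h1)
    rwa [eF_gr hSh] at this
  have c5 : (S \ eF h).card + (S ∩ eF h).card = S.card := Finset.card_sdiff_add_card_inter S (eF h)
  have hsd : S \ eF h ⊆ eF T0 \ eF h := by
    intro e he
    rw [Finset.mem_sdiff] at he
    have := hsub he.1
    rw [Finset.mem_union] at this
    exact this.resolve_left he.2
  have c6 := Finset.card_le_card hsd
  have e1 : S \ eF h = eF T0 \ eF h := Finset.eq_of_subset_of_card_le hsd (by omega)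
  have e2 : S ∩ eF h = eF t := by
    have h3 : S ∩ eF h ⊆ eF t := by
      have := eF_mono.2 h1
      rwa [eF_gr hSh] at this
    exact Finset.eq_of_subset_of_card_le h3 (by omega)
  refine ⟨t, h2, ?_⟩
  unfold io
  rw [← e1, ← e2, Finset.union_comm]
  exact Finset.sdiff_union_inter S (eF h)

theorem io_inj {h T0 t t' : SimpleGraph (Fin k)} (ht : t ≤ h) (ht' : t' ≤ h)
    (he : io h T0 t = io h T0 t') : t = t' := by
  classical
  have key : ∀ t : SimpleGraph (Fin k), t ≤ h → io h T0 t ∩ eF h = eF t := by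
    intro t ht
    ext e
    unfold io
    rw [Finset.mem_inter, Finset.mem_union, Finset.mem_sdiff]
    constructor
    · rintro ⟨h1 | h1, h2⟩
      · exact h1
      · exact absurd h2 h1.2
    · intro h1
      exact ⟨Or.inl h1, eF_mono.2 ht h1⟩
  apply eF_inj
  rw [← key t ht, ← key t' ht', he]

theorem exists_F (hHL : S_HL) (h h' : SimpleGraph (Fin k)) (hh : h ≤ h') (hc : h'.Connected) :
    ∃ F : SimpleGraph (Fin k) → I → SimpleGraph (Fin k),
      (∀ t t', MeasurableSet {u : I | F t u = t'}) ∧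
      (∀ t ∈ MSF h, ∀ u, F t u ∈ MSF h' ∧ F t u ⊓ h ≤ t) ∧
      ∀ t' ∈ MSF h', ∑' t : {t // t ∈ MSF h}, (volume : Measure I).real {u | F t.1 u = t'} =
        (Set.ncard (MSF h) : ℝ) / (Set.ncard (MSF h') : ℝ) := by
  classical
  obtain ⟨t0, ht0⟩ := msf_nonempty h
  obtain ⟨T0, h0, hT', hT⟩ := hc.exists_isTree_le_of_le_of_isAcyclic (ht0.1.trans hh) ht0.2.1
  set O := oo h h' T0 with hO
  -- the finite sets
  set X : Finset (SimpleGraph (Fin k)) := (Set.toFinite (MSF h)).toFinset with hX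
  set X' : Finset (SimpleGraph (Fin k)) := (Set.toFinite (MSF h')).toFinset with hX'
  have mX : ∀ t, t ∈ X ↔ t ∈ MSF h := fun t => Set.Finite.mem_toFinset _
  have mX' : ∀ t, t ∈ X' ↔ t ∈ MSF h' := fun t => Set.Finite.mem_toFinset _
  have cX : X.card = Set.ncard (MSF h) := (Set.ncard_eq_toFinset_card _ (Set.toFinite _)).symm
  have cX' : X'.card = Set.ncard (MSF h') := (Set.ncard_eq_toFinset_card _ (Set.toFinite _)).symm
  have hDD : (mg h').D = eF h' := rfl
  -- the numbers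
  have n1 : NS (mg h') ∅ ∅ tr = X'.card := by
    refine NS_eq (mg h') ∅ X' eF ?_ ?_ ?_
    · intro t ht
      exact ⟨isST_eF hc ((mX' t).1 ht), Finset.disjoint_empty_right _⟩
    · intro t _ t' _ he
      exact eF_inj he
    · intro S hS _
      obtain ⟨h1, h2⟩ := gr_msf hc hS
      exact ⟨gr S, (mX' _).2 h1, h2⟩
  have n2 : NS (mg h') ∅ O tr = X.card := by
    refine NS_eq (mg h') O X (io h T0) ?_ ?_ ?_
    · intro t ht
      exact io_st hh hc ht0 hT hT' h0 ((mX t).1 ht)
    · intro t ht t' ht' he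
      exact io_inj ((mX t).1 ht).1 ((mX t').1 ht').1 he
    · intro S hS hd
      obtain ⟨t, h1, h2⟩ := io_surj hh hc ht0 hT h0 hS hd
      exact ⟨t, (mX _).2 h1, h2⟩
  have p2 : 0 < NS (mg h') ∅ O tr := by
    rw [n2]
    exact Finset.card_pos.2 ⟨t0, (mX _).2 ht0⟩
  have p1 : 0 < X'.card := Finset.card_pos.2 ⟨T0, (mX' _).2 ((msf_conn hc).2 ⟨hT', hT⟩)⟩
  obtain ⟨c, hc1, hc2, hc3⟩ := HL' hHL (mg h') O p2
  -- the weights
  have w1 : ∀ t ∈ MSF h, ∑ t' ∈ X', c (io h T0 t) (eF t') = X'.card := by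
    intro t ht
    obtain ⟨h1, h2⟩ := io_st hh hc ht0 hT hT' h0 ht
    rw [← n1, ← hc2 _ h1 h2]
    symm
    refine (Finset.sum_of_injOn eF ?_ ?_ ?_ ?_).symm
    · intro t _ t' _ he
      exact eF_inj he
    · intro t' ht'
      have := (mX' t').1 (Finset.mem_coe.1 ht')
      rw [Finset.mem_coe, Finset.mem_powerset, hDD]
      exact eF_mono.2 this.1
    · intro S _ hS
      by_contra hne
      obtain ⟨_, _, h3, _⟩ := hc1 _ _ hne
      obtain ⟨h4, h5⟩ := gr_msf hc h3
      exact hS ⟨gr S, Finset.mem_coe.2 ((mX' _).2 h4), h5⟩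
    · intro t' _
      rfl
  have w2 : ∀ t' ∈ MSF h', ∑ t ∈ X, c (io h T0 t) (eF t') = X.card := by
    intro t' ht'
    rw [← n2, ← hc3 _ (isST_eF hc ht')]
    symm
    refine (Finset.sum_of_injOn (io h T0) ?_ ?_ ?_ ?_).symm
    · intro t ht t' ht' he
      exact io_inj ((mX t).1 (Finset.mem_coe.1 ht)).1 ((mX t').1 (Finset.mem_coe.1 ht')).1 he
    · intro t ht
      have := (mX t).1 (Finset.mem_coe.1 ht)
      rw [Finset.mem_coe, Finset.mem_powerset, hDD]
      exact ((isST_iff hc _).1 (io_st hh hc ht0 hT hT' h0 this).1).1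
    · intro S _ hS
      by_contra hne
      obtain ⟨h3, h4, _, _⟩ := hc1 _ _ hne
      obtain ⟨t, h5, h6⟩ := io_surj hh hc ht0 hT h0 h3 h4
      exact hS ⟨t, Finset.mem_coe.2 ((mX _).2 h5), h6⟩
    · intro t _
      rfl
  have w3 : ∀ t ∈ MSF h, ∀ t', c (io h T0 t) (eF t') ≠ 0 → t' ⊓ h ≤ t := by
    intro t ht t' hne
    obtain ⟨_, _, _, h1⟩ := hc1 _ _ hne
    rw [← eF_mono]
    intro e he
    rw [mem_eF, SimpleGraph.edgeSet_inf] at he
    have heh : e ∈ eF h := mem_eF.2 he.2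
    have h2 : e ∈ io h T0 t := by
      refine h1 e (mem_eF.2 he.1) (fun hce => ?_)
      rw [hO] at hce
      unfold oo at hce
      rw [Finset.mem_sdiff] at hce
      exact hce.2 (Finset.mem_union_left _ heh)
    unfold io at h2
    rw [Finset.mem_union, Finset.mem_sdiff] at h2
    rcases h2 with h2 | h2
    · exact h2
    · exact absurd heh h2.2
  have hF : ∀ t ∈ MSF h, ∃ f : I → SimpleGraph (Fin k), (∀ g, MeasurableSet {u | f u = g}) ∧
      (∀ u, f u ∈ X' ∧ c (io h T0 t) (eF (f u)) ≠ 0) ∧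
      ∀ g ∈ X', (volume : Measure I).real {u | f u = g} =
        ((c (io h T0 t) (eF g) : ℕ) : ℝ) / (X'.card : ℝ) := by
    intro t ht
    exact split X' (fun t' => c (io h T0 t) (eF t')) X'.card p1 (w1 t ht)
  choose! f hf1 hf2 hf3 using hF
  refine ⟨fun t u => if t ∈ MSF h then f t u else ⊥, ?_, ?_, ?_⟩
  · intro t t'
    by_cases ht : t ∈ MSF h
    · simp only [if_pos ht]
      exact hf1 t ht t'
    · simp only [if_neg ht]
      exact MeasurableSet.const _
  · intro t ht u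
    simp only [if_pos ht]
    obtain ⟨h1, h2⟩ := hf2 t ht u
    exact ⟨(mX' _).1 h1, w3 t ht _ h2⟩
  · intro t' ht'
    have e1 : ∀ t : {t // t ∈ MSF h}, (volume : Measure I).real
        {u | (if t.1 ∈ MSF h then f t.1 u else ⊥) = t'} =
        ((c (io h T0 t.1) (eF t') : ℕ) : ℝ) / (X'.card : ℝ) := by
      intro t
      simp only [if_pos t.2]
      exact hf3 t.1 t.2 t' ((mX' _).2 ht')
    simp only [e1]
    haveI : Fintype {t // t ∈ MSF h} := Fintype.ofFinite _
    rw [tsum_fintype, ← Finset.sum_div, ← cX, ← cX']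
    congr 1
    have e2 := w2 t' ht'
    have e3 : ∑ t : {t // t ∈ MSF h}, ((c (io h T0 t.1) (eF t') : ℕ) : ℝ) =
        ∑ t ∈ X, ((c (io h T0 t) (eF t') : ℕ) : ℝ) := by
      symm
      exact Finset.sum_subtype X mX (fun t => ((c (io h T0 t) (eF t') : ℕ) : ℝ))
    rw [e3]
    exact_mod_cast e2

theorem ker (hHL : S_HL) : S_KER := by
  classical
  choose F hF1 hF2 hF3 using fun (k : ℕ) (h h' : SimpleGraph (Fin k)) (hh : h ≤ h')
    (hc : h'.Connected) => exists_F hHL h h' hh hc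
  refine ⟨fun k h h' t u => if H : h ≤ h' ∧ h'.Connected then F k h h' H.1 H.2 t u else ⊥,
    ?_, ?_, ?_, ?_⟩
  · intro k h h' t t'
    by_cases H : h ≤ h' ∧ h'.Connected
    · simp only [dif_pos H]
      exact hF1 k h h' H.1 H.2 t t'
    · simp only [dif_neg H]
      exact MeasurableSet.const _
  · intro k h h' t u hh hc ht
    have H : h ≤ h' ∧ h'.Connected := ⟨hh, hc⟩
    simp only [dif_pos H]
    exact (hF2 k h h' hh hc t ht u).1
  · intro k h h' t u hh hc ht
    have H : h ≤ h' ∧ h'.Connected := ⟨hh, hc⟩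
    simp only [dif_pos H]
    exact (hF2 k h h' hh hc t ht u).2
  · intro k h h' t' hh hc ht'
    have H : h ≤ h' ∧ h'.Connected := ⟨hh, hc⟩
    simp only [dif_pos H]
    exact hF3 k h h' hh hc t' ht'

end Pool.Agent.Y10.WU
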